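import Pool.Agent.Helper6.LP.St

/-!
# Project LP, module PRP: one pair
-/

set_option autoImplicit false

noncomputable section

namespace Pool.Agent.Helper89.LP

open Finset
open Pool.Agent.Helper6.LP
open Pool.Agent.Helper60.LZ (js)
open Pool.Agent.Helper98.LM (QQ)

private lemma mem_QQ {p w l : ℕ} (h : l ∈ QQ p w) : l.Prime ∧ p < l ∧ l ≤ w := by
  unfold QQ at h
  obtain ⟨h1, h2⟩ := mem_filter.1 h
  obtain ⟨h3, h4⟩ := mem_Ioc.1 h1
  exact ⟨h2, h3, h4⟩

private lemma mod_ff (P a : ℕ) (y : ℤ) (l m : ℕ) :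
    (l : ℤ) ∣ ff ((a : ℤ) + P * ((m % l : ℕ) : ℤ)) y ↔ (l : ℤ) ∣ ff ((a : ℤ) + P * m) y := by
  have h0 : ((a : ℤ) + P * ((m % l : ℕ) : ℤ)) ≡ ((a : ℤ) + P * m) [ZMOD l] := by
    refine Int.ModEq.add_left _ (Int.ModEq.mul_left _ ?_)
    rw [Int.natCast_mod]
    exact Int.mod_modEq _ _
  have h1 : ff ((a : ℤ) + P * ((m % l : ℕ) : ℤ)) y ≡ ff ((a : ℤ) + P * m) y [ZMOD l] := by
    unfold ff fa fb
    exact Int.ModEq.mul (Int.ModEq.add (Int.ModEq.sub_right _ h0) (Int.ModEq.mul_right _ h0))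
      (Int.ModEq.add (Int.ModEq.pow _ (Int.ModEq.sub_right _ h0)) (Int.ModEq.mul_right _ h0))
  exact Int.ModEq.dvd_iff h1

private lemma mem_SS (P a y l m : ℕ) (hl : 0 < l) :
    m % l ∈ SS P a y l ↔ (l : ℤ) ∣ ff ((a : ℤ) + P * m) y := by
  unfold SS
  rw [mem_filter, mem_range, mod_ff]
  exact ⟨fun h => h.2, fun h => ⟨Nat.mod_lt _ hl, h⟩⟩

private lemma js_le (t l : ℕ) : js t l ≤ 1 := by
  unfold js
  rcases jacobiSym.trichotomy ((t : ℤ) ^ 2 - 4) l with h | h | h <;> rw [h] <;> norm_num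

private lemma ge_one (l : ℕ) (hl : 24 ≤ l) (g g' : ℝ) (hg : g ≤ 3) (hg' : g' ≤ 3) :
    1 ≤ (1 - g / l) * (1 - g' / l) * (1 + 8 / (l : ℝ)) := by
  have hl0 : (24 : ℝ) ≤ l := by exact_mod_cast hl
  have hl1 : (0 : ℝ) < l := by linarith
  have hx : (1 : ℝ) / l ≤ 1 / 24 := one_div_le_one_div_of_le (by norm_num) hl0
  have hx0 : (0 : ℝ) < 1 / l := by positivity
  have e1 : (8 : ℝ) / l = 8 * (1 / l) := by ring
  rw [e1]
  have f1 : 1 - 3 * (1 / (l : ℝ)) ≤ 1 - g / l := by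
    have h2 := mul_le_mul_of_nonneg_right hg hx0.le
    have h3 : g / l = g * (1 / (l : ℝ)) := by ring
    rw [h3]
    linarith
  have f2 : 1 - 3 * (1 / (l : ℝ)) ≤ 1 - g' / l := by
    have h2 := mul_le_mul_of_nonneg_right hg' hx0.le
    have h3 : g' / l = g' * (1 / (l : ℝ)) := by ring
    rw [h3]
    linarith
  have f3 : 0 ≤ 1 - 3 * (1 / (l : ℝ)) := by linarith
  have h1 : (1 - 3 * (1 / (l : ℝ))) * (1 - 3 * (1 / (l : ℝ))) ≤ (1 - g / l) * (1 - g' / l) :=
    mul_le_mul f1 f2 f3 (f3.trans f1)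
  have h2 : 1 ≤ (1 - 3 * (1 / (l : ℝ))) * (1 - 3 * (1 / (l : ℝ))) * (1 + 8 * (1 / (l : ℝ))) := by
    generalize (1 : ℝ) / l = x at hx hx0
    nlinarith [mul_pos hx0 hx0, mul_pos (mul_pos hx0 hx0) hx0, mul_nonneg hx0.le (sub_nonneg.2 hx)]
  exact h2.trans (mul_le_mul_of_nonneg_right h1 (by linarith))

private lemma card_le (hL : StLOP) (P a y l : ℕ) (hl : l.Prime) (h3 : 3 < l) (hP : ¬ l ∣ P) (hy : 2 ≤ y) :
    ((SS P a y l).card : ℝ) ≤ 3 := by
  have h1 := (hL P a l hl h3 hP).1 y hy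
  have h2 := js_le (y - 2) l
  linarith

private lemma point (hL : StLOP) (P a y z l : ℕ) (hl : l.Prime) (h24 : 24 ≤ l) (hP : ¬ l ∣ P)
    (hy : 2 ≤ y) (hz : 2 ≤ z) :
    1 - ((SS P a y l ∪ SS P a z l).card : ℝ) / l ≤
      ((1 - ((SS P a y l).card : ℝ) / l) * (1 - ((SS P a z l).card : ℝ) / l)) *
        (if l ∣ DD y z then (1 + 8 / (l : ℝ)) else 1) := by
  have h4 := (hL P a l hl (by omega) hP).2
  have hl1 : (0 : ℝ) < l := by exact_mod_cast hl.pos
  have h5 := ge_one l h24 _ _ (card_le hL P a y l hl (by omega) hP hy) (card_le hL P a z l hl (by omega) hP hz)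
  have h6 : (0 : ℝ) ≤ ((SS P a y l ∪ SS P a z l).card : ℝ) / l := by positivity
  by_cases c2 : l ∣ DD y z
  · rw [if_pos c2]
    linarith
  · rw [if_neg c2, mul_one, card_union_of_disjoint (h4 y z c2)]
    push_cast
    have e : (1 - ((SS P a y l).card : ℝ) / l) * (1 - ((SS P a z l).card : ℝ) / l) =
        1 - (((SS P a y l).card : ℝ) + (SS P a z l).card) / l +
          (((SS P a y l).card : ℝ) / l) * (((SS P a z l).card : ℝ) / l) := by ring
    rw [e]
    have : (0 : ℝ) ≤ (((SS P a y l).card : ℝ) / l) * (((SS P a z l).card : ℝ) / l) := by positivity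
    linarith

/-- PRP. -/
theorem hPRP (hS : StSV6) (hL : StLOP) : StPRP := by
  classical
  intro ε hε
  obtain ⟨B, hB⟩ := hS ε hε
  refine ⟨B, fun p P a y z w M hp hP hw hy hz => ?_⟩
  have hnP : ∀ l ∈ QQ p w, ¬ l ∣ P := by
    intro l hl h
    have h1 := mem_QQ hl
    have h2 := hP l h1.1 h
    omega
  have h24 : ∀ l ∈ QQ p w, 24 ≤ l := by
    intro l hl
    have h1 := mem_QQ hl
    omega
  have hc6 : ∀ l ∈ QQ p w, (SS P a y l ∪ SS P a z l).card ≤ 6 := by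
    intro l hl
    have h2 : (SS P a y l).card ≤ 3 := by
      exact_mod_cast card_le hL P a y l (mem_QQ hl).1 (by have := h24 l hl; omega) (hnP l hl) hy
    have h3 : (SS P a z l).card ≤ 3 := by
      exact_mod_cast card_le hL P a z l (mem_QQ hl).1 (by have := h24 l hl; omega) (hnP l hl) hz
    have h4 := card_union_le (SS P a y l) (SS P a z l)
    omega
  have key := hB w M hw (QQ p w) (fun l => SS P a y l ∪ SS P a z l)
    (fun l hl => ⟨(mem_QQ hl).1, by have := h24 l hl; omega, (mem_QQ hl).2.2⟩)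
    (fun l hl => ⟨fun s hs => by
      rcases mem_union.1 hs with h | h
      · unfold SS at h
        exact mem_range.1 (mem_filter.1 h).1
      · unfold SS at h
        exact mem_range.1 (mem_filter.1 h).1, hc6 l hl⟩)
  have hset : ((Icc 1 M).filter (fun m : ℕ => Sf p w ((a : ℤ) + P * m) y ∧ Sf p w ((a : ℤ) + P * m) z)).card =
      ((Icc 1 M).filter (fun m : ℕ => ∀ l ∈ QQ p w, m % l ∉ SS P a y l ∪ SS P a z l)).card := by
    congr 1
    refine filter_congr fun m _ => ?_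
    constructor
    · rintro ⟨h1, h2⟩ l hl h
      rcases mem_union.1 h with h3 | h3
      · exact h1 l hl ((mem_SS P a y l m (mem_QQ hl).1.pos).1 h3)
      · exact h2 l hl ((mem_SS P a z l m (mem_QQ hl).1.pos).1 h3)
    · intro h
      exact ⟨fun l hl h1 => h l hl (mem_union_left _ ((mem_SS P a y l m (mem_QQ hl).1.pos).2 h1)),
        fun l hl h1 => h l hl (mem_union_right _ ((mem_SS P a z l m (mem_QQ hl).1.pos).2 h1))⟩
  rw [hset]
  have hprod : ∏ l ∈ QQ p w, (1 - ((SS P a y l ∪ SS P a z l).card : ℝ) / l) ≤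
      (VV p w P a y * VV p w P a z) *
      ∏ l ∈ (QQ p w).filter (fun l => l ∣ DD y z), (1 + 8 / (l : ℝ)) := by
    rw [prod_filter]
    unfold VV
    rw [← prod_mul_distrib, ← prod_mul_distrib]
    refine prod_le_prod (fun l hl => ?_)
      (fun l hl => point hL P a y z l (mem_QQ hl).1 (h24 l hl) (hnP l hl) hy hz)
    have h1 : (((SS P a y l ∪ SS P a z l).card : ℕ) : ℝ) ≤ 6 := by exact_mod_cast hc6 l hl
    have h2 : (24 : ℝ) ≤ l := by exact_mod_cast h24 l hl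
    have h3 : (0 : ℝ) < l := by linarith
    rw [sub_nonneg, div_le_one h3]
    linarith
  have hM : (0 : ℝ) ≤ M := Nat.cast_nonneg M
  have h1 := (abs_le.1 key).2
  have h2 := mul_le_mul_of_nonneg_left hprod hM
  have h3 := mul_le_mul_of_nonneg_left h2 (by linarith : (0 : ℝ) ≤ 1 + ε)
  calc _ ≤ (1 + ε) * (M * ∏ l ∈ QQ p w, (1 - ((SS P a y l ∪ SS P a z l).card : ℝ) / l)) + (w : ℝ) ^ B := by
        linarith
    _ ≤ _ := by
        rw [mul_assoc (M : ℝ)]
        linarith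

end Pool.Agent.Helper89.LP
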